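import Pool.Agent.V5helper28.KP.Stm

/-!
# Project KP (helper28): job FUB
-/

set_option autoImplicit false

namespace Pool.Agent.V5helper6.KP

open MeasureTheory Set
open Pool.Agent.V5helper28.SSK Pool.Agent.V5helper28.KP
open scoped ENNReal

theorem t_FUB : S_FUB := by
  intro d Γ N₀ K hΓ hN hN0 huniq hK hpos hcon
  have hptc : Continuous fun q : (E d × E d) × ℝ => pt q.2 (q.1.2 + q.2 • q.1.1) := by
    unfold pt
    refine (PiLp.continuous_toLp 2 _).comp (continuous_pi fun i => ?_)
    refine Fin.cases ?_ (fun j => ?_) i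
    · simp only [Fin.cons_zero]
      exact continuous_snd
    · simp only [Fin.cons_succ]
      have h : Continuous fun q : (E d × E d) × ℝ => q.1.2 + q.2 • q.1.1 := by fun_prop
      exact (continuous_apply j).comp ((PiLp.continuous_ofLp 2 _).comp h)
  let S : Set ((E d × E d) × ℝ) :=
    {q | q.1 ∈ Γ} ∩ ({q | q.1.1 ∈ N₀ᶜ} ∩ {q | pt q.2 (q.1.2 + q.2 • q.1.1) ∈ K})
  have hS : MeasurableSet S := by
    refine MeasurableSet.inter (measurable_fst hΓ.isClosed.measurableSet)
      (MeasurableSet.inter ?_ (hptc.measurable hK))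
    exact (measurable_fst.comp measurable_fst) hN.compl
  let f : (E d × E d) × ℝ → E d × ℝ := fun q => (q.1.1, q.2)
  have hf : Measurable f := (measurable_fst.comp measurable_fst).prodMk measurable_snd
  have hinj : InjOn f S := by
    rintro ⟨z, t⟩ ⟨h1, h2, _⟩ ⟨z', t'⟩ ⟨h1', _, _⟩ h
    have e1 : z.1 = z'.1 := congrArg (fun q : E d × ℝ => q.1) h
    have e2 : t = t' := congrArg (fun q : E d × ℝ => q.2) h
    rw [huniq z h1 z' h1' e1 h2, e2]
  have hD : MeasurableSet (f '' S) := hS.image_of_measurable_injOn hf hinj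
  -- the sections with fixed `t`
  have h1 : (volume.prod volume : Measure (ℝ × E d)) (Prod.swap ⁻¹' (f '' S)) = 0 := by
    rw [Measure.measure_prod_null (measurable_swap hD)]
    have h2 : ∀ᵐ t : ℝ, volume (Prod.fst '' {z : E d × E d | z ∈ Γ ∧ pt t (z.2 + t • z.1) ∈ K}) = 0 := by
      rw [ae_iff]
      exact hcon
    filter_upwards [h2] with t ht
    refine measure_mono_null ?_ ht
    rintro x ⟨q, ⟨hq1, _, hq3⟩, hq⟩
    have e1 : q.1.1 = x := congrArg (fun q : E d × ℝ => q.1) hq
    have e2 : q.2 = t := congrArg (fun q : E d × ℝ => q.2) hq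
    refine ⟨q.1, ⟨hq1, ?_⟩, e1⟩
    rw [← e2]
    exact hq3
  have h3 : (volume.prod volume : Measure (E d × ℝ)) (f '' S) = 0 := by
    rw [← Measure.prod_swap, Measure.map_apply measurable_swap hD]
    exact h1
  rw [Measure.measure_prod_null hD] at h3
  apply hpos
  have h4 : volume {x : E d | ¬ (fun x => volume (Prod.mk x ⁻¹' (f '' S))) x = (0 : E d → ℝ≥0∞) x} = 0 := h3
  refine measure_mono_null ?_ (measure_union_null hN0 h4)
  rintro x ⟨a, ha1, ha2⟩
  by_cases hx : x ∈ N₀
  · exact Or.inl hx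
  · right
    intro h5
    apply ha2
    refine measure_mono_null ?_ h5
    intro t ht
    exact ⟨((x, a), t), ⟨ha1, hx, ht⟩, rfl⟩

end Pool.Agent.V5helper6.KP
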